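import Mathlib

/-! The maximal number of complete extensions of an argumentation framework: upper bound. -/

namespace Run7.h842.AF

universe u

variable {V : Type u}

/-- `S` is conflict-free; `R a b`: `a` attacks `b` -/
def ConflictFree (R : V → V → Prop) (S : Set V) : Prop := ∀ a ∈ S, ∀ b ∈ S, ¬ R a b

/-- `S` defends `a` -/
def Defends (R : V → V → Prop) (S : Set V) (a : V) : Prop := ∀ b, R b a → ∃ c ∈ S, R c b

/-- `S` is admissible -/
def Admissible (R : V → V → Prop) (S : Set V) : Prop := ConflictFree R S ∧ ∀ a ∈ S, Defends R S a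

/-- `S` is a complete extension -/
def Complete (R : V → V → Prop) (S : Set V) : Prop := Admissible R S ∧ ∀ a, Defends R S a → a ∈ S

/-- the number of complete extensions -/
noncomputable def numComplete (R : V → V → Prop) : ℕ := Nat.card {S : Set V // Complete R S}

/-- the conjectured maximum -/
def sig (n : ℕ) : ℕ := if n ≤ 1 then 1 else if n % 2 = 0 then 3 ^ (n / 2) else 4 * 3 ^ ((n - 3) / 2)

theorem sig_even (i : ℕ) : sig (2 * i) = 3 ^ i := by
  unfold sig
  rcases Nat.eq_zero_or_pos i with rfl | h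
  · simp
  · rw [if_neg (by omega), if_pos (by omega)]; congr 1; omega

theorem sig_odd (i : ℕ) : sig (2 * (i + 1) + 1) = 4 * 3 ^ i := by
  unfold sig
  rw [if_neg (by omega), if_neg (by omega)]; congr 2; omega

theorem sig_one : sig 1 = 1 := by simp [sig]

theorem cases_par (n : ℕ) : (∃ i, n = 2 * i) ∨ n = 1 ∨ ∃ i, n = 2 * (i + 1) + 1 := by
  rcases Nat.even_or_odd' n with ⟨i, h | h⟩
  · exact Or.inl ⟨i, h⟩
  · rcases Nat.eq_zero_or_pos i with h0 | h0
    · right; left; omega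
    · right; right; exact ⟨i - 1, by omega⟩

theorem sig_add (a b : ℕ) : sig a * sig b ≤ sig (a + b) := by
  have key1 : ∀ i : ℕ, 3 ^ i ≤ sig (2 * i + 1) := by
    intro i
    rcases i with _ | i
    · simp [sig]
    · rw [sig_odd, pow_succ]; omega
  have key2 : ∀ i : ℕ, 4 * 3 ^ i ≤ sig (2 * (i + 2)) := by
    intro i; rw [sig_even, pow_succ, pow_succ]; omega
  rcases cases_par a with ⟨i, rfl⟩ | rfl | ⟨i, rfl⟩ <;> rcases cases_par b with ⟨j, rfl⟩ | rfl | ⟨j, rfl⟩
  · rw [sig_even, sig_even, ← mul_add, sig_even, pow_add]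
  · rw [sig_even, sig_one, mul_one]; exact key1 i
  · have : 2 * i + (2 * (j + 1) + 1) = 2 * (i + j + 1) + 1 := by ring
    rw [sig_even, sig_odd, this, sig_odd, pow_add]; apply le_of_eq; ring
  · rw [sig_even, sig_one, one_mul, add_comm]; exact key1 j
  · simp [sig]
  · have : 1 + (2 * (j + 1) + 1) = 2 * (j + 2) := by ring
    rw [sig_one, sig_odd, this, one_mul]; exact key2 j
  · have : 2 * (i + 1) + 1 + 2 * j = 2 * (i + j + 1) + 1 := by ring
    rw [sig_even, sig_odd, this, sig_odd, pow_add]; apply le_of_eq; ring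
  · have : 2 * (i + 1) + 1 + 1 = 2 * (i + 2) := by ring
    rw [sig_one, sig_odd, this, mul_one]; exact key2 i
  · have : 2 * (i + 1) + 1 + (2 * (j + 1) + 1) = 2 * (i + j + 3) := by ring
    rw [sig_odd, sig_odd, this, sig_even, pow_add, pow_add]
    have : 0 < 3 ^ i * 3 ^ j := by positivity
    nlinarith

theorem sig_pos (n : ℕ) : 1 ≤ sig n := by
  unfold sig; split_ifs
  · exact le_rfl
  · exact Nat.one_le_pow _ _ (by norm_num)
  · have := Nat.one_le_pow ((n - 3) / 2) 3 (by norm_num); omega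

theorem sig_mono {a b : ℕ} (h : a ≤ b) : sig a ≤ sig b := by
  have h1 := sig_add a (b - a)
  have h2 := sig_pos (b - a)
  rw [Nat.add_sub_cancel' h] at h1
  nlinarith [sig_pos a]

theorem three_pow_sig (k n : ℕ) : 3 ^ k * sig n ≤ sig (2 * k + n) := by
  rw [← sig_even]; exact sig_add _ _

section reduction

variable [Fintype V] (R : V → V → Prop) (I A₀ : Finset V)

/-- the label of an argument: `0` in, `1` out, `2` undecided -/
noncomputable def lab (S : Set V) (a : V) : Fin 3 := by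
  classical
  exact if a ∈ S then 0 else if ∃ c ∈ S, R c a then 1 else 2

theorem lab_zero {S : Set V} {a : V} : lab R S a = 0 ↔ a ∈ S := by
  classical
  unfold lab; split_ifs with h1 h2 <;> simp [h1]

theorem lab_one {S : Set V} {a : V} (hS : ConflictFree R S) : lab R S a = 1 ↔ ∃ c ∈ S, R c a := by
  classical
  unfold lab; split_ifs with h1 h2
  · simp only [Fin.isValue, zero_ne_one, false_iff, not_exists, not_and]
    exact fun c hc => hS c hc a h1
  · simp [h2]
  · simp only [Fin.isValue, h2, iff_false]; decide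

/-- the remaining arguments -/
abbrev Rest : Type u := {v : V // v ∉ I ∧ v ∉ A₀}

/-- forced out by the labels on `A₀` -/
def Forced (l : A₀ → Fin 3) (r : V) : Prop := ∃ a : A₀, l a = 0 ∧ R a r

/-- the modified framework on the remaining arguments -/
def Rl (l : A₀ → Fin 3) (b r : Rest I A₀) : Prop :=
  (b = r ∧ ∃ a : A₀, (l a = 0 ∨ l a = 2) ∧ R a r) ∨ (R b r ∧ ¬ Forced R A₀ l b ∧ ¬ Forced R A₀ l r)

/-- the trace on the remaining arguments -/
def trace (S : Set V) : Set (Rest I A₀) := {r | r.1 ∈ S}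

theorem trace_complete (hN : ∀ w ∈ I, ∀ v, v ≠ w → (R v w ∨ R w v) → v ∈ A₀) (hd : ∀ w ∈ I, w ∉ A₀)
    {S : Set V} (hS : Complete R S) :
    Complete (Rl R I A₀ (fun a => lab R S a.1)) (trace I A₀ S) := by
  obtain ⟨⟨hcf, hadm⟩, hcom⟩ := hS
  set l : A₀ → Fin 3 := fun a => lab R S a.1 with hl
  -- members of `S` are not attacked from `A₀` by arguments in or undecided
  have hno : ∀ r ∈ S, ∀ a : A₀, (l a = 0 ∨ l a = 2) → ¬ R a r := by
    rintro r hr a (h | h) hR
    · exact hcf a.1 ((lab_zero R).1 h) r hr hR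
    · obtain ⟨c, hc, hca⟩ := hadm r hr a.1 hR
      have : lab R S a.1 = 1 := (lab_one R hcf).2 ⟨c, hc, hca⟩
      simp only [hl] at h
      rw [this] at h; exact absurd h (by decide)
  have hcf' : ConflictFree (Rl R I A₀ l) (trace I A₀ S) := by
    rintro b hb r hr (⟨h1, a, h2, h3⟩ | ⟨h1, -, -⟩)
    · exact hno r.1 hr a h2 h3
    · exact hcf b.1 hb r.1 hr h1
  refine ⟨⟨hcf', ?_⟩, ?_⟩
  · rintro r hr b (⟨h1, a, h2, h3⟩ | ⟨h1, h2, h3⟩)
    · exact absurd h3 (hno r.1 hr a h2)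
    · obtain ⟨c, hc, hcb⟩ := hadm r.1 hr b.1 h1
      have hcI : c ∉ I := by
        intro hcI
        by_cases hbc : b.1 = c
        · exact b.2.1 (hbc ▸ hcI)
        · exact b.2.2 (hN c hcI b.1 hbc (Or.inr hcb))
      have hcA : c ∉ A₀ := fun hcA => h2 ⟨⟨c, hcA⟩, (lab_zero R).2 hc, hcb⟩
      refine ⟨⟨c, hcI, hcA⟩, hc, Or.inr ⟨hcb, ?_, h2⟩⟩
      rintro ⟨a, ha, hac⟩
      exact hno c hc a (Or.inl ha) hac
  · intro r hdef
    have hrO : ¬ Forced R A₀ l r.1 := by
      rintro ⟨a, ha, har⟩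
      obtain ⟨c, hc, hcr⟩ := hdef r (Or.inl ⟨rfl, a, Or.inl ha, har⟩)
      rcases hcr with ⟨h1, a', h2, h3⟩ | ⟨-, -, h3⟩
      · subst h1; exact hno c.1 hc a' h2 h3
      · exact h3 ⟨a, ha, har⟩
    have hrU : ¬ ∃ a : A₀, l a = 2 ∧ R a r.1 := by
      rintro ⟨a, ha, har⟩
      obtain ⟨c, hc, hcr⟩ := hdef r (Or.inl ⟨rfl, a, Or.inr ha, har⟩)
      obtain ⟨c', hc', hcc'⟩ := hdef c hcr
      exact hcf' c' hc' c hc hcc'
    refine hcom r.1 ?_
    intro b hbr
    by_cases hbA : b ∈ A₀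
    · have h1 : lab R S b ≠ 0 := fun h => hrO ⟨⟨b, hbA⟩, h, hbr⟩
      have h2 : lab R S b ≠ 2 := fun h => hrU ⟨⟨b, hbA⟩, h, hbr⟩
      have h3 : lab R S b = 1 := by
        have : ∀ x : Fin 3, x ≠ 0 → x ≠ 2 → x = 1 := by decide
        exact this _ h1 h2
      exact (lab_one R hcf).1 h3
    · have hbI : b ∉ I := by
        intro hbI
        by_cases hbr' : r.1 = b
        · exact r.2.1 (hbr' ▸ hbI)
        · exact r.2.2 (hN b hbI r.1 hbr' (Or.inr hbr))
      by_cases hbO : Forced R A₀ l b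
      · obtain ⟨a, ha, hab⟩ := hbO
        exact ⟨a.1, (lab_zero R).1 ha, hab⟩
      · obtain ⟨c, hc, hcb⟩ := hdef ⟨b, hbI, hbA⟩ (Or.inr ⟨hbr, hbO, hrO⟩)
        rcases hcb with ⟨h1, a', h2, h3⟩ | ⟨h1, -, -⟩
        · subst h1; exact absurd h3 (hno b hc a' h2)
        · exact ⟨c.1, hc, h1⟩

theorem reduce (hI : ∀ a ∈ I, ∀ b ∈ I, a ≠ b → ¬ R a b)
    (hN : ∀ w ∈ I, ∀ v, v ≠ w → (R v w ∨ R w v) → v ∈ A₀) (hd : ∀ w ∈ I, w ∉ A₀) (B : ℕ)
    (hB : ∀ R' : Rest I A₀ → Rest I A₀ → Prop, numComplete R' ≤ B) :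
    numComplete R ≤ 3 ^ A₀.card * B := by
  classical
  let f : {S : Set V // Complete R S} →
      Σ l : A₀ → Fin 3, {T : Set (Rest I A₀) // Complete (Rl R I A₀ l) T} :=
    fun S => ⟨fun a => lab R S.1 a.1, ⟨trace I A₀ S.1, trace_complete R I A₀ hN hd S.2⟩⟩
  have hf : Function.Injective f := by
    rintro ⟨S, hS⟩ ⟨S', hS'⟩ h
    simp only [f, Sigma.mk.injEq] at h
    obtain ⟨h1, h2⟩ := h
    have h1' : ∀ a ∈ A₀, lab R S a = lab R S' a := fun a ha => congrFun h1 ⟨a, ha⟩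
    have h3 : trace I A₀ S = trace I A₀ S' := by
      have : ∀ (l l' : A₀ → Fin 3) (hl : l = l') (T : {T : Set (Rest I A₀) // Complete (Rl R I A₀ l) T})
          (T' : {T : Set (Rest I A₀) // Complete (Rl R I A₀ l') T}), HEq T T' → T.1 = T'.1 := by
        rintro l l' rfl T T' h
        rw [eq_of_heq h]
      exact this _ _ h1 _ _ h2
    apply Subtype.ext
    -- the trace on `I` is determined by the labels on `A₀`
    have hIdet : ∀ w ∈ I, (w ∈ S ↔ (¬ R w w ∧ ∀ a ∈ A₀, R a w → lab R S a = 1)) ∧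
        (w ∈ S' ↔ (¬ R w w ∧ ∀ a ∈ A₀, R a w → lab R S' a = 1)) := by
      have gen : ∀ S'' : Set V, Complete R S'' → ∀ w ∈ I,
          (w ∈ S'' ↔ (¬ R w w ∧ ∀ a ∈ A₀, R a w → lab R S'' a = 1)) := by
        rintro S'' ⟨⟨hcf, hadm⟩, hcom⟩ w hw
        constructor
        · intro hwS
          exact ⟨hcf w hwS w hwS, fun a ha haw => (lab_one R hcf).2 (hadm w hwS a haw)⟩
        · rintro ⟨hww, hall⟩
          refine hcom w fun b hbw => ?_
          have hbne : b ≠ w := by rintro rfl; exact hww hbw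
          exact (lab_one R hcf).1 (hall b (hN w hw b hbne (Or.inl hbw)) hbw)
      exact fun w hw => ⟨gen S hS w hw, gen S' hS' w hw⟩
    ext x
    by_cases hxA : x ∈ A₀
    · simp only
      rw [← lab_zero R, ← lab_zero R, h1' x hxA]
    · by_cases hxI : x ∈ I
      · simp only
        rw [(hIdet x hxI).1, (hIdet x hxI).2]
        refine and_congr_right fun _ => forall₂_congr fun a ha => ?_
        rw [h1' a ha]
      · have : (⟨x, hxI, hxA⟩ : Rest I A₀) ∈ trace I A₀ S ↔ (⟨x, hxI, hxA⟩ : Rest I A₀) ∈ trace I A₀ S' := by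
          rw [h3]
        exact this
  calc numComplete R ≤ Nat.card (Σ l : A₀ → Fin 3, {T : Set (Rest I A₀) // Complete (Rl R I A₀ l) T}) :=
        Nat.card_le_card_of_injective f hf
    _ = ∑ l : A₀ → Fin 3, numComplete (Rl R I A₀ l) := Nat.card_sigma
    _ ≤ ∑ _l : A₀ → Fin 3, B := Finset.sum_le_sum fun l _ => hB _
    _ = 3 ^ A₀.card * B := by simp

end reduction

end Run7.h842.AF
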