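import Mathlib
import Pool.Agent.Run7.h842.AF.A

/-! Independent sets of a graph with a permutation moving every vertex to a neighbour. -/

namespace Run7.h842.AF

universe u

variable {V : Type u}

/-- no two distinct members are related -/
def Indep (adj : V → V → Prop) (S : Finset V) : Prop := ∀ a ∈ S, ∀ b ∈ S, a ≠ b → ¬ adj a b

theorem Indep.mono {adj : V → V → Prop} {S T : Finset V} (h : Indep adj T) (hST : S ⊆ T) : Indep adj S :=
  fun a ha b hb => h a (hST ha) b (hST hb)

/-- the number of independent subsets of `K` -/
noncomputable def ind (adj : V → V → Prop) (K : Finset V) : ℕ := by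
  classical
  exact (K.powerset.filter (Indep adj)).card

/-- the code of `S` on the pairs `a i, b i` -/
noncomputable def code (a b : ℕ → V) (p : ℕ) (S : Finset V) : Fin p → Fin 3 := by
  classical
  exact fun i => if a i ∈ S then 1 else if b i ∈ S then 2 else 0

theorem code_inj {adj : V → V → Prop} {a b : ℕ → V} {p : ℕ} (hab : ∀ i < p, a i ≠ b i ∧ adj (a i) (b i))
    {S T : Finset V} (hS : Indep adj S) (hT : Indep adj T) (h : code a b p S = code a b p T) :
    ∀ i < p, (a i ∈ S ↔ a i ∈ T) ∧ (b i ∈ S ↔ b i ∈ T) := by
  classical
  intro i hi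
  have h1 := congrFun h ⟨i, hi⟩
  have h2 : a i ∈ S → b i ∉ S := fun h1 h2 => hS _ h1 _ h2 (hab i hi).1 (hab i hi).2
  have h3 : a i ∈ T → b i ∉ T := fun h1 h2 => hT _ h1 _ h2 (hab i hi).1 (hab i hi).2
  unfold code at h1
  simp only at h1
  by_cases hSa : a i ∈ S <;> by_cases hTa : a i ∈ T <;> by_cases hSb : b i ∈ S <;> by_cases hTb : b i ∈ T <;>
    simp_all

theorem ind_split (adj : V → V → Prop) [DecidableEq V] (K O : Finset V) (hO : O ⊆ K) :
    ind adj K ≤ ind adj O * ind adj (K \ O) := by
  classical
  unfold ind
  rw [← Finset.card_product]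
  apply Finset.card_le_card_of_injOn (fun S => (S ∩ O, S \ O))
  · intro S hS
    simp only [Finset.coe_filter, Finset.mem_powerset, Set.mem_ofPred_eq] at hS
    simp only [Finset.coe_product, Set.mem_prod, Finset.coe_filter, Finset.mem_powerset, Set.mem_ofPred_eq]
    exact ⟨⟨Finset.inter_subset_right, hS.2.mono Finset.inter_subset_left⟩,
      Finset.sdiff_subset_sdiff hS.1 (Finset.Subset.refl _), hS.2.mono Finset.sdiff_subset⟩
  · intro S _ T _ h
    simp only [Prod.mk.injEq] at h
    ext x
    by_cases hx : x ∈ O
    · have := congrArg (x ∈ ·) h.1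
      simp only [Finset.mem_inter, hx, and_true, eq_iff_iff] at this
      exact this
    · have := congrArg (x ∈ ·) h.2
      simp only [Finset.mem_sdiff, hx, not_false_eq_true, and_true, eq_iff_iff] at this
      exact this

/-- even cycles -/
theorem ind_even (adj : V → V → Prop) (u : ℕ → V) (m : ℕ) (O : Finset V)
    (hO : ∀ x ∈ O, ∃ i < 2 * m, x = u i)
    (hu : ∀ i, u i ≠ u (i + 1) ∧ adj (u i) (u (i + 1))) : ind adj O ≤ 3 ^ m := by
  classical
  have : 3 ^ m = (Finset.univ : Finset (Fin m → Fin 3)).card := by simp
  rw [this]
  unfold ind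
  apply Finset.card_le_card_of_injOn (code (fun i => u (2 * i)) (fun i => u (2 * i + 1)) m)
  · intro S _; simp
  · intro S hS T hT h
    simp only [Finset.coe_filter, Finset.mem_powerset, Set.mem_ofPred_eq] at hS hT
    have key := code_inj (fun i _ => hu (2 * i)) hS.2 hT.2 h
    ext x
    have : x ∈ O → (x ∈ S ↔ x ∈ T) := by
      intro hx
      obtain ⟨i, hi, rfl⟩ := hO x hx
      rcases Nat.even_or_odd' i with ⟨j, rfl | rfl⟩
      · exact (key j (by omega)).1
      · exact (key j (by omega)).2
    constructor
    · intro h; exact (this (hS.1 h)).1 h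
    · intro h; exact (this (hT.1 h)).2 h

/-- odd cycles -/
theorem ind_odd (adj : V → V → Prop) (u : ℕ → V) (m : ℕ) (O : Finset V)
    (hO : ∀ x ∈ O, ∃ i < 2 * m + 3, x = u i) (hper : u (2 * m + 3) = u 0)
    (hu : ∀ i, u i ≠ u (i + 1) ∧ adj (u i) (u (i + 1))) : ind adj O ≤ 4 * 3 ^ m := by
  classical
  have hcard : 4 * 3 ^ m = ((Finset.univ : Finset (Fin (m + 1) → Fin 3)).disjSum
      (Finset.univ : Finset (Fin m → Fin 3))).card := by
    simp [Finset.card_disjSum, pow_succ]; ring
  rw [hcard]
  unfold ind
  apply Finset.card_le_card_of_injOn (fun S => if u 0 ∈ S then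
    Sum.inr (code (fun i => u (2 * i + 2)) (fun i => u (2 * i + 3)) m S) else
    Sum.inl (code (fun i => u (2 * i + 1)) (fun i => u (2 * i + 2)) (m + 1) S))
  · intro S _
    by_cases h : u 0 ∈ S <;> simp [h]
  · intro S hS T hT h
    simp only [Finset.coe_filter, Finset.mem_powerset, Set.mem_ofPred_eq] at hS hT
    have fin : (∀ x ∈ O, (x ∈ S ↔ x ∈ T)) → S = T := by
      intro h; ext x
      constructor
      · intro h'; exact (h x (hS.1 h')).1 h'
      · intro h'; exact (h x (hT.1 h')).2 h'
    by_cases h0 : u 0 ∈ S <;> by_cases h1 : u 0 ∈ T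
    · simp only [h0, h1, if_true, Sum.inr.injEq] at h
      have key := code_inj (fun i _ => hu (2 * i + 2)) hS.2 hT.2 h
      apply fin
      intro x hx
      obtain ⟨i, hi, rfl⟩ := hO x hx
      rcases Nat.eq_zero_or_pos i with rfl | hi0
      · exact ⟨fun _ => h1, fun _ => h0⟩
      · by_cases hi1 : i = 1
        · subst hi1
          have a1 : u 1 ∉ S := fun h' => hS.2 _ h0 _ h' (hu 0).1 (hu 0).2
          have a2 : u 1 ∉ T := fun h' => hT.2 _ h1 _ h' (hu 0).1 (hu 0).2
          simp [a1, a2]
        · by_cases hi2 : i = 2 * m + 2
          · subst hi2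
            have e := hu (2 * m + 2)
            rw [show 2 * m + 2 + 1 = 2 * m + 3 by ring, hper] at e
            have a1 : u (2 * m + 2) ∉ S := fun h' => hS.2 _ h' _ h0 e.1 e.2
            have a2 : u (2 * m + 2) ∉ T := fun h' => hT.2 _ h' _ h1 e.1 e.2
            simp [a1, a2]
          · rcases Nat.even_or_odd' i with ⟨j, hj | hj⟩
            · have := (key (j - 1) (by omega)).1
              rw [show 2 * (j - 1) + 2 = i by omega] at this
              exact this
            · have := (key (j - 1) (by omega)).2
              rw [show 2 * (j - 1) + 3 = i by omega] at this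
              exact this
    · simp [h0, h1] at h
    · simp [h0, h1] at h
    · simp only [h0, h1, if_false, Sum.inl.injEq] at h
      have key := code_inj (fun i _ => hu (2 * i + 1)) hS.2 hT.2 h
      apply fin
      intro x hx
      obtain ⟨i, hi, rfl⟩ := hO x hx
      rcases Nat.eq_zero_or_pos i with rfl | hi0
      · simp [h0, h1]
      · rcases Nat.even_or_odd' i with ⟨j, hj | hj⟩
        · have := (key (j - 1) (by omega)).2
          rw [show 2 * (j - 1) + 2 = i by omega] at this
          exact this
        · have := (key j (by omega)).1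
          rw [show 2 * j + 1 = i by omega] at this
          exact this

theorem ind_perm [Finite V] (adj : V → V → Prop) (f : V → V) (hf : Function.Injective f)
    (hadj : ∀ v, v ≠ f v ∧ adj v (f v)) : ∀ (n : ℕ) (K : Finset V), K.card = n → (∀ v ∈ K, f v ∈ K) →
    ind adj K ≤ sig n := by
  classical
  intro n
  induction n using Nat.strong_induction_on with
  | _ n ih =>
    intro K hK hKf
    rcases K.eq_empty_or_nonempty with rfl | ⟨v0, hv0⟩
    · simp only [Finset.card_empty] at hK
      subst hK
      unfold ind
      simp only [Finset.powerset_empty]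
      refine (Finset.card_filter_le _ _).trans ?_
      simp [sig]
    · have hper : v0 ∈ Function.periodicPts f := by
        obtain ⟨i, j, hne, h⟩ := Finite.exists_ne_map_eq_of_infinite (fun i : ℕ => f^[i] v0)
        have gen : ∀ i j : ℕ, i < j → f^[i] v0 = f^[j] v0 → v0 ∈ Function.periodicPts f := by
          intro i j hij h
          refine Function.mk_mem_periodicPts (n := j - i) (by omega) ?_
          have : f^[i] (f^[j - i] v0) = f^[i] v0 := by
            rw [← Function.iterate_add_apply, show i + (j - i) = j by omega, h]
          exact (hf.iterate i) this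
        rcases lt_or_gt_of_ne hne with h' | h'
        · exact gen i j h' h
        · exact gen j i h' h.symm
      set k := Function.minimalPeriod f v0 with hk
      have hk0 : 0 < k := Function.minimalPeriod_pos_of_mem_periodicPts hper
      have hfk : f^[k] v0 = v0 := Function.iterate_minimalPeriod
      have hk2 : 2 ≤ k := by
        by_contra hlt
        have : k = 1 := by omega
        rw [this] at hfk
        exact (hadj v0).1 hfk.symm
      set O : Finset V := (Finset.range k).image (fun i => f^[i] v0) with hO
      have hcardO : O.card = k := by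
        rw [hO, Finset.card_image_of_injOn, Finset.card_range]
        intro i hi j hj h
        simp only [Finset.coe_range, Set.mem_Iio] at hi hj
        exact Function.iterate_injOn_Iio_minimalPeriod (Set.mem_Iio.2 hi) (Set.mem_Iio.2 hj) h
      have hitK : ∀ i, f^[i] v0 ∈ K := by
        intro i
        induction i with
        | zero => simpa using hv0
        | succ i ih' => rw [Function.iterate_succ_apply']; exact hKf _ ih'
      have hOK : O ⊆ K := by
        intro x hx
        obtain ⟨i, -, rfl⟩ := Finset.mem_image.1 hx
        exact hitK i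
      have hKO : ∀ v ∈ K \ O, f v ∈ K \ O := by
        intro v hv
        rw [Finset.mem_sdiff] at hv ⊢
        refine ⟨hKf v hv.1, fun hfv => hv.2 ?_⟩
        obtain ⟨i, hi, h⟩ := Finset.mem_image.1 hfv
        rw [Finset.mem_range] at hi
        rcases Nat.eq_zero_or_pos i with rfl | hi0
        · simp only [Function.iterate_zero, id_eq] at h
          have : f (f^[k - 1] v0) = f v := by
            rw [← Function.iterate_succ_apply' f, show (k - 1).succ = k by omega, hfk, h]
          rw [← hf this]
          exact Finset.mem_image.2 ⟨k - 1, Finset.mem_range.2 (by omega), rfl⟩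
        · have : f (f^[i - 1] v0) = f v := by
            rw [← Function.iterate_succ_apply' f, show (i - 1).succ = i by omega, h]
          rw [← hf this]
          exact Finset.mem_image.2 ⟨i - 1, Finset.mem_range.2 (by omega), rfl⟩
      have hcardKO : (K \ O).card = n - k := by
        rw [Finset.card_sdiff_of_subset hOK, hK, hcardO]
      have hkn : k ≤ n := by rw [← hK, ← hcardO]; exact Finset.card_le_card hOK
      have h1 : ind adj (K \ O) ≤ sig (n - k) := ih (n - k) (by omega) _ hcardKO hKO
      have hu : ∀ i, (f^[i] v0) ≠ (f^[i + 1] v0) ∧ adj (f^[i] v0) (f^[i + 1] v0) := by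
        intro i
        rw [Function.iterate_succ_apply']
        exact hadj _
      have h2 : ind adj O ≤ sig k := by
        rcases Nat.even_or_odd' k with ⟨m, hm | hm⟩
        · rw [hm, sig_even]
          refine ind_even adj (fun i => f^[i] v0) m O ?_ hu
          intro x hx
          obtain ⟨i, hi, rfl⟩ := Finset.mem_image.1 hx
          exact ⟨i, by rw [← hm]; exact Finset.mem_range.1 hi, rfl⟩
        · have hk3 : k = 2 * ((m - 1) + 1) + 1 := by omega
          rw [hk3, sig_odd]
          refine ind_odd adj (fun i => f^[i] v0) (m - 1) O ?_ ?_ hu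
          · intro x hx
            obtain ⟨i, hi, rfl⟩ := Finset.mem_image.1 hx
            exact ⟨i, by rw [Finset.mem_range] at hi; omega, rfl⟩
          · simp only [Function.iterate_zero, id_eq]
            rw [show 2 * (m - 1) + 3 = k by omega]; exact hfk
      calc ind adj K ≤ ind adj O * ind adj (K \ O) := ind_split adj K O hOK
        _ ≤ sig k * sig (n - k) := Nat.mul_le_mul h2 h1
        _ ≤ sig (k + (n - k)) := sig_add _ _
        _ = sig n := by congr 1; omega

end Run7.h842.AF
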