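import Mathlib
import Pool.Agent.Run7.h842.AF.A
import Pool.Agent.Run7.h842.AF.B

/-! The maximal number of complete extensions. -/

namespace Run7.h842.AF

universe u

/-- one of the two attacks the other -/
def sadj {V : Type u} (R : V → V → Prop) (a b : V) : Prop := R a b ∨ R b a

/-- the neighbours of `X` -/
noncomputable def nbr {V : Type u} [Fintype V] (R : V → V → Prop) (X : Finset V) : Finset V := by
  classical
  exact Finset.univ.filter (fun v => ∃ w ∈ X, v ≠ w ∧ sadj R v w)

theorem mem_nbr {V : Type u} [Fintype V] {R : V → V → Prop} {X : Finset V} {v : V} :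
    v ∈ nbr R X ↔ ∃ w ∈ X, v ≠ w ∧ sadj R v w := by
  classical
  unfold nbr; simp

theorem numComplete_le_ind {V : Type u} [Fintype V] (R : V → V → Prop) :
    numComplete R ≤ ind (sadj R) Finset.univ := by
  classical
  unfold numComplete ind
  have : Nat.card {S : Set V // Complete R S} ≤
      Nat.card {S : Finset V // S ∈ (Finset.univ : Finset V).powerset.filter (Indep (sadj R))} := by
    refine Nat.card_le_card_of_injective (fun S => ⟨S.1.toFinset, ?_⟩) ?_
    · rw [Finset.mem_filter, Finset.mem_powerset]
      refine ⟨Finset.subset_univ _, ?_⟩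
      intro a ha b hb _
      rw [Set.mem_toFinset] at ha hb
      rintro (h | h)
      · exact S.2.1.1 a ha b hb h
      · exact S.2.1.1 b hb a ha h
    · intro S T h
      simp only [Subtype.mk.injEq, Set.toFinset_inj] at h
      exact Subtype.ext h
  refine this.trans (le_of_eq ?_)
  rw [Nat.card_eq_fintype_card, Fintype.card_coe]

theorem exists_map {V : Type u} [Fintype V] (R : V → V → Prop)
    (h : ∀ I : Finset V, I.Nonempty → Indep (sadj R) I → I.card < (nbr R I).card) :
    ∃ f : V → V, Function.Injective f ∧ ∀ v, v ≠ f v ∧ sadj R v (f v) := by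
  classical
  have hall : ∀ X : Finset V, X.card ≤ (X.biUnion (fun v => nbr R {v})).card := by
    intro X
    have hbi : X.biUnion (fun v => nbr R {v}) = nbr R X := by
      ext v
      simp only [Finset.mem_biUnion, mem_nbr, Finset.mem_singleton, exists_eq_left]
    rw [hbi]
    set X' : Finset V := X \ nbr R X with hX'
    have hindep : Indep (sadj R) X' := by
      intro a ha b hb hab hadj
      rw [hX', Finset.mem_sdiff] at ha hb
      exact ha.2 (mem_nbr.2 ⟨b, hb.1, hab, hadj⟩)
    have h1 : X'.card ≤ (nbr R X').card := by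
      rcases X'.eq_empty_or_nonempty with h0 | h0
      · rw [h0]; simp
      · exact (h X' h0 hindep).le
    have h2 : (X ∩ nbr R X) ∪ nbr R X' ⊆ nbr R X := by
      intro v hv
      rcases Finset.mem_union.1 hv with hv | hv
      · exact (Finset.mem_inter.1 hv).2
      · obtain ⟨w, hw, hvw⟩ := mem_nbr.1 hv
        rw [hX', Finset.mem_sdiff] at hw
        exact mem_nbr.2 ⟨w, hw.1, hvw⟩
    have h3 : Disjoint (X ∩ nbr R X) (nbr R X') := by
      rw [Finset.disjoint_left]
      intro v hv hv'
      obtain ⟨w, hw, hvw, hadj⟩ := mem_nbr.1 hv'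
      rw [hX', Finset.mem_sdiff] at hw
      exact hw.2 (mem_nbr.2 ⟨v, (Finset.mem_inter.1 hv).1, hvw.symm, hadj.symm⟩)
    have h4 := Finset.card_le_card h2
    rw [Finset.card_union_of_disjoint h3] at h4
    have h5 : X'.card + (X ∩ nbr R X).card = X.card := Finset.card_sdiff_add_card_inter X (nbr R X)
    omega
  obtain ⟨f, hf, hfm⟩ := (Finset.all_card_le_biUnion_card_iff_exists_injective _).1 hall
  refine ⟨f, hf, fun v => ?_⟩
  obtain ⟨w, hw, hne, hadj⟩ := mem_nbr.1 (hfm v)
  rw [Finset.mem_singleton] at hw
  subst hw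
  exact ⟨hne.symm, hadj.symm⟩

theorem upper : ∀ (n : ℕ) (V : Type u) [Fintype V], Fintype.card V = n → ∀ R : V → V → Prop,
    numComplete R ≤ sig n := by
  classical
  intro n
  induction n using Nat.strong_induction_on with
  | _ n ih =>
    intro V _ hV R
    by_cases hc : ∃ I : Finset V, I.Nonempty ∧ Indep (sadj R) I ∧ (nbr R I).card ≤ I.card
    · obtain ⟨I, hI, hind, hle⟩ := hc
      have hd : ∀ w ∈ I, w ∉ nbr R I := by
        intro w hw hw'
        obtain ⟨w', hw', hne, hadj⟩ := mem_nbr.1 hw'
        exact hind w hw w' hw' hne hadj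
      have hcardRest : Fintype.card (Rest I (nbr R I)) + (I.card + (nbr R I).card) = n := by
        have hdis : Disjoint I (nbr R I) := Finset.disjoint_left.2 hd
        rw [← Finset.card_union_of_disjoint hdis, Fintype.card_subtype, ← hV,
          ← Finset.card_compl_add_card (I ∪ nbr R I)]
        congr 2
        ext v; simp [not_or]
      have hI1 : 1 ≤ I.card := hI.card_pos
      have h1 := reduce R I (nbr R I)
        (fun a ha b hb hab h => hind a ha b hb hab (Or.inl h))
        (fun w hw v hne h => mem_nbr.2 ⟨w, hw, hne, h⟩) hd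
        (sig (Fintype.card (Rest I (nbr R I))))
        (fun R' => ih (Fintype.card (Rest I (nbr R I))) (by omega) (Rest I (nbr R I)) rfl R')
      refine h1.trans ((three_pow_sig _ _).trans (sig_mono (by omega)))
    · push Not at hc
      obtain ⟨f, hf, hadj⟩ := exists_map R hc
      refine (numComplete_le_ind R).trans ?_
      exact ind_perm (sadj R) f hf hadj n Finset.univ (by rw [Finset.card_univ, hV]) (fun _ _ => Finset.mem_univ _)

/-- the framework of disjoint mutually attacking classes -/
def classR {m : ℕ} (s : Fin m → ℕ) (a b : Σ j : Fin m, Fin (s j)) : Prop := a ≠ b ∧ a.1 = b.1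

theorem classR_lower {m : ℕ} (s : Fin m → ℕ) (hs : ∀ j, 2 ≤ s j) :
    ∏ j, (s j + 1) ≤ numComplete (classR s) := by
  classical
  have hcard : ∏ j, (s j + 1) = Nat.card (∀ j, Option (Fin (s j))) := by
    rw [Nat.card_eq_fintype_card, Fintype.card_pi]; simp
  rw [hcard]
  unfold numComplete
  have hcomp : ∀ c : (∀ j, Option (Fin (s j))),
      Complete (classR s) {x : Σ j : Fin m, Fin (s j) | c x.1 = some x.2} := by
    intro c
    have hcf : ConflictFree (classR s) {x : Σ j : Fin m, Fin (s j) | c x.1 = some x.2} := by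
      rintro ⟨i, x⟩ hx ⟨j, y⟩ hy ⟨hne, heq⟩
      simp only at heq
      subst heq
      simp only [Set.mem_ofPred_eq] at hx hy
      rw [hx] at hy
      exact hne (by rw [Option.some.inj hy])
    refine ⟨⟨hcf, ?_⟩, ?_⟩
    · rintro a ha b ⟨hne, heq⟩
      exact ⟨a, ha, hne.symm, heq.symm⟩
    · rintro ⟨i, x⟩ hdef
      obtain ⟨y, hy⟩ : ∃ y : Fin (s i), y ≠ x := by
        have : Nontrivial (Fin (s i)) := Fin.nontrivial_iff_two_le.2 (hs i)
        exact exists_ne x
      obtain ⟨⟨j, z⟩, hz, hzne, hzeq⟩ := hdef ⟨i, y⟩ ⟨by simpa using hy, rfl⟩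
      simp only at hzeq
      subst hzeq
      by_cases hzx : z = x
      · subst hzx; exact hz
      · exfalso
        obtain ⟨d, hd, hdz⟩ := hdef ⟨j, z⟩ ⟨by simpa using hzx, rfl⟩
        exact hcf d hd _ hz hdz
  refine Nat.card_le_card_of_injective (fun c => ⟨_, hcomp c⟩) ?_
  intro c c' h
  simp only [Subtype.mk.injEq] at h
  funext j
  ext x
  have := congrArg ((⟨j, x⟩ : Σ j : Fin m, Fin (s j)) ∈ ·) h
  simp only [Set.mem_ofPred_eq, eq_iff_iff] at this
  exact this

theorem card_classes {m : ℕ} (s : Fin m → ℕ) : Fintype.card (Σ j : Fin m, Fin (s j)) = ∑ j, s j := by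
  simp

/-- **The maximal number of complete extensions.** -/
theorem main (n : ℕ) : IsGreatest {k : ℕ | ∃ (A : Type) (_ : Fintype A) (R : A → A → Prop),
    Fintype.card A = n ∧ numComplete R = k} (sig n) := by
  classical
  constructor
  · rcases cases_par n with ⟨i, rfl⟩ | rfl | ⟨i, rfl⟩
    · refine ⟨Σ j : Fin i, Fin ((fun _ => 2) j), inferInstance, classR (fun _ => 2), ?_, ?_⟩
      · simp [mul_comm]
      · apply le_antisymm
        · exact upper _ _ (by simp [mul_comm]) _
        · have := classR_lower (m := i) (fun _ => 2) (fun _ => le_rfl)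
          rw [sig_even]
          simpa using this
    · refine ⟨Unit, inferInstance, fun _ _ => False, by simp, ?_⟩
      apply le_antisymm
      · exact upper _ _ (by simp) _
      · rw [sig_one]
        have : Nonempty {S : Set Unit // Complete (fun _ _ => False) S} := by
          refine ⟨⟨Set.univ, ⟨?_, ?_⟩, ?_⟩⟩
          · intro a _ b _ h; exact h
          · intro a _ b h; exact absurd h id
          · intro a _; exact Set.mem_univ _
        exact Nat.card_pos
    · have hc : ∑ j, (Fin.cons 3 (fun _ => 2) : Fin (i + 1) → ℕ) j = 2 * (i + 1) + 1 := by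
        rw [Fin.sum_univ_succ]; simp; ring
      refine ⟨Σ j : Fin (i + 1), Fin ((Fin.cons 3 (fun _ => 2) : Fin (i + 1) → ℕ) j), inferInstance,
        classR (Fin.cons 3 (fun _ => 2) : Fin (i + 1) → ℕ), ?_, ?_⟩
      · rw [card_classes, hc]
      · apply le_antisymm
        · exact upper _ _ (by rw [card_classes, hc]) _
        · have := classR_lower (Fin.cons 3 (fun _ => 2) : Fin (i + 1) → ℕ) (by
            intro j; refine Fin.cases ?_ (fun _ => ?_) j <;> simp)
          rw [sig_odd]
          rw [Fin.prod_univ_succ] at this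
          simpa using this
  · rintro k ⟨A, hA, R, hn, rfl⟩
    exact upper n A hn R

end Run7.h842.AF
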